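import Pool.Agent.Helper44.HD.GoalsQ

/-!
# Project HD (MP_e5f486_ag), packet QM: `N_W(BV) = Hom(V, W)`
-/

set_option autoImplicit false
set_option linter.unusedSectionVars false

open Finset
open scoped TensorProduct

namespace Pool.Agent.Helper8.HD

open Pool.Agent.Helper44.HD

section

variable {k G R : Type} [Field k] [Group G] [Ring R] [Algebra k R]
  [MulSemiringAction G R] [SMulCommClass G k R] {D : RedGroup k G}
  {v w : Type} [Fintype v] [DecidableEq v] [Fintype w] [DecidableEq w]
  {V : MRep D v} {W : MRep D w}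

/-- value at a point -/
def fnx (V : MRep D v) (x : G) : BM R V →+ R where
  toFun F := F.fn x
  map_zero' := rfl
  map_add' _ _ := rfl

theorem fnx_apply (x : G) (F : BM R V) : fnx V x F = F.fn x := rfl

theorem fnx_smulk (x : G) (c : k) (F : BM R V) : fnx V x (c • F) = c • F.fn x := rfl

theorem fnx_lf (x : G) (r : R) (F : BM R V) : fnx V x ((lf r : Gam k R) • F) = r * F.fn x := by
  change ((r ⊗ₜ MulOpposite.op (1 : R) : Gam k R) • F.fn) x = _
  rw [bf_smul, smul_one, mul_one]

theorem fnx_rt (r : R) (F : BM R V) : fnx V 1 ((rt r : Gam k R) • F) = F.fn 1 * r := by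
  change (((1 : R) ⊗ₜ MulOpposite.op r : Gam k R) • F.fn) 1 = _
  rw [bf_smul, one_mul, one_smul]

/-- the coefficient as an element of `BM` -/
noncomputable def cfB (R : Type) [Ring R] [Algebra k R] [MulSemiringAction G R]
    [SMulCommClass G k R] (V : MRep D v) (i j : v) : BM R V :=
  (⟨cf R V i j, Submodule.subset_span ⟨i, j, rfl⟩⟩ : BV R V)

theorem cfB_fn (i j : v) (x : G) : (cfB R V i j).fn x = algebraMap k R (V.m x i j) := rfl

variable {X : EMod D R (BM R V)}

/-- the values of an invariant matrix -/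
theorem val_eq (hX : ∀ (g h : G) (F : BM R V) (x : G), (X.π (g, h) F).fn x = g • F.fn (g⁻¹ * x * h))
    {Y : w → v → BM R V} (hY : Y ∈ NN V W X) (g h x : G) (i : w) (j : v) :
    ∑ a, W.m g i a • (g • (Y a j).fn (g⁻¹ * x * h)) = ∑ b, V.m h b j • (Y i b).fn x := by
  have h1 := congrArg (fnx V x) (mem_NN.1 hY g h i j)
  rw [map_sum, map_sum] at h1
  simp only [fnx_smulk, hX] at h1
  exact h1

theorem val_h (hX : ∀ (g h : G) (F : BM R V) (x : G), (X.π (g, h) F).fn x = g • F.fn (g⁻¹ * x * h))
    {Y : w → v → BM R V} (hY : Y ∈ NN V W X) (h : G) (i : w) (j : v) :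
    (Y i j).fn h = ∑ b, V.m h b j • (Y i b).fn 1 := by
  have h1 := val_eq hX hY 1 h 1 i j
  rw [← h1, Finset.sum_eq_single i]
  · rw [W.one, Matrix.one_apply_eq, one_smul, one_smul, inv_one, one_mul, one_mul]
  · intro a _ ha
    rw [W.one, Matrix.one_apply_ne (Ne.symm ha), zero_smul]
  · intro hi
    exact absurd (Finset.mem_univ i) hi

theorem val_mem (hX : ∀ (g h : G) (F : BM R V) (x : G), (X.π (g, h) F).fn x = g • F.fn (g⁻¹ * x * h))
    {Y : w → v → BM R V} (hY : Y ∈ NN V W X) :
    (fun i j => (Y i j).fn 1 : Matrix w v R) ∈ Hm R V W := by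
  intro g i j
  have h1 := val_eq hX hY g g 1 i j
  simp only [mul_one, inv_mul_cancel] at h1
  exact h1

/-- the inverse construction -/
noncomputable def bk (V : MRep D v) (A : Matrix w v R) : w → v → BM R V :=
  fun i j => ∑ l, (lf (A i l) : Gam k R) • cfB R V l j

theorem bk_fn (A : Matrix w v R) (i : w) (j : v) (x : G) :
    (bk V A i j).fn x = ∑ l, V.m x l j • A i l := by
  rw [← fnx_apply, bk, map_sum]
  refine Finset.sum_congr rfl fun l _ => ?_
  rw [fnx_lf, cfB_fn, ← Algebra.commutes, Algebra.smul_def]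

theorem bk_mem (hX : ∀ (g h : G) (F : BM R V) (x : G), (X.π (g, h) F).fn x = g • F.fn (g⁻¹ * x * h))
    {A : Matrix w v R} (hA : A ∈ Hm R V W) : bk V A ∈ NN V W X := by
  rw [mem_NN]
  intro g h i j
  apply BM.ext
  funext x
  rw [← fnx_apply, ← fnx_apply, map_sum, map_sum]
  simp only [fnx_smulk, hX, bk_fn]
  calc ∑ a, W.m g i a • (g • ∑ l, V.m (g⁻¹ * x * h) l j • A a l)
      = ∑ l, V.m (g⁻¹ * x * h) l j • ∑ a, W.m g i a • (g • A a l) := by
        simp only [Finset.smul_sum]
        rw [Finset.sum_comm]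
        refine Finset.sum_congr rfl fun l _ => Finset.sum_congr rfl fun a _ => ?_
        rw [smul_comm g (V.m (g⁻¹ * x * h) l j), smul_comm (W.m g i a)]
    _ = ∑ l, V.m (g⁻¹ * x * h) l j • ∑ b, V.m g b l • A i b := by
        exact Finset.sum_congr rfl fun l _ => by rw [hA g i l]
    _ = ∑ b, (V.m (x * h) b j) • A i b := by
        simp only [Finset.smul_sum, smul_smul]
        rw [Finset.sum_comm]
        refine Finset.sum_congr rfl fun b _ => ?_
        rw [← Finset.sum_smul]
        have e : V.m (x * h) = V.m g * V.m (g⁻¹ * x * h) := by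
          rw [← V.mul]
          congr 1
          group
        rw [e, Matrix.mul_apply]
        refine congrArg (fun c : k => c • A i b) ?_
        exact Finset.sum_congr rfl fun l _ => mul_comm _ _
    _ = ∑ b, V.m h b j • ∑ l, V.m x l b • A i l := by
        simp only [Finset.smul_sum, smul_smul]
        rw [Finset.sum_comm]
        refine Finset.sum_congr rfl fun b _ => ?_
        rw [← Finset.sum_smul, V.mul, Matrix.mul_apply]
        refine congrArg (fun c : k => c • A i b) ?_
        exact Finset.sum_congr rfl fun l _ => mul_comm _ _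

end

theorem qm : StmtQM := by
  intro k G R v w _ _ _ _ _ _ D _ _ _ _ V W X hX
  let φ : NN V W X →ₗ[EE R W] Hm R V W :=
    { toFun := fun Y => ⟨fun i j => (Y.1 i j).fn 1, val_mem hX Y.2⟩
      map_add' := fun Y Z => rfl
      map_smul' := by
        intro A Y
        apply Subtype.ext
        ext i j
        change ((A • Y).1 i j).fn 1 = (A.1 * (Matrix.of fun i j => (Y.1 i j).fn 1)) i j
        rw [smul_NN, ← fnx_apply, map_sum, Matrix.mul_apply]
        exact Finset.sum_congr rfl fun l _ => fnx_lf 1 _ _ }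
  have hφ : ∀ (Y : NN V W X) (i : w) (j : v), (φ Y).1 i j = (Y.1 i j).fn 1 := fun _ _ _ => rfl
  have hinj : Function.Injective φ := by
    intro Y Z h
    apply Subtype.ext
    funext i j
    apply BM.ext
    funext x
    rw [val_h hX Y.2, val_h hX Z.2]
    refine Finset.sum_congr rfl fun b _ => ?_
    have h1 : (φ Y).1 i b = (φ Z).1 i b := by rw [h]
    rw [hφ, hφ] at h1
    rw [h1]
  have hsurj : Function.Surjective φ := by
    intro A
    refine ⟨⟨bk V A.1, bk_mem hX A.2⟩, ?_⟩
    apply Subtype.ext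
    ext i j
    rw [hφ]
    change (bk V A.1 i j).fn 1 = A.1 i j
    rw [bk_fn, Finset.sum_eq_single j]
    · rw [V.one, Matrix.one_apply_eq, one_smul]
    · intro l _ hl
      rw [V.one, Matrix.one_apply_ne hl, zero_smul]
    · intro hj
      exact absurd (Finset.mem_univ j) hj
  refine ⟨LinearEquiv.ofBijective φ ⟨hinj, hsurj⟩, ?_⟩
  intro a Y
  apply Subtype.ext
  ext i j
  change (φ ((NA V W X).r a Y)).1 i j = ((HU V W).r a (φ Y)).1 i j
  rw [hφ, NA_apply, HU_apply, ← fnx_apply, map_sum, Matrix.mul_apply]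
  refine Finset.sum_congr rfl fun l _ => ?_
  rw [fnx_rt, hφ]

end Pool.Agent.Helper8.HD
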