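import Pool.Agent.Helper80.HD.GoalsB

set_option autoImplicit false

open MvPolynomial

noncomputable section

namespace Pool.Agent.Helper8.HD

open Pool.Agent.Helper80.HD

/-! ### Extension of an absolute value to the fraction field -/

theorem exists_ext_frac (R F : Type) [CommRing R] [IsDomain R] [Field F] [Algebra R F]
    [IsFractionRing R F] (v : AbsoluteValue R ℝ) :
    ∃ w : AbsoluteValue F ℝ, (∀ r, w (algebraMap R F r) = v r) ∧
      (IsNonarchimedean v → IsNonarchimedean w) := by
  classical
  have hsur : ∀ z : F, ∃ a b : R, b ≠ 0 ∧ algebraMap R F a / algebraMap R F b = z := by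
    intro z
    obtain ⟨a, b, hb, h⟩ := IsFractionRing.div_surjective (A := R) z
    exact ⟨a, b, nonZeroDivisors.ne_zero hb, h⟩
  have hinj : Function.Injective (algebraMap R F) := IsFractionRing.injective R F
  have hne : ∀ b : R, b ≠ 0 → algebraMap R F b ≠ 0 := fun b hb h =>
    hb (hinj (by rw [h, map_zero]))
  choose A B hB hAB using hsur
  have hpos : ∀ b : R, b ≠ 0 → 0 < v b := fun b hb => v.pos hb
  have key : ∀ (z : F) (a b : R), b ≠ 0 → algebraMap R F a / algebraMap R F b = z →
      v (A z) / v (B z) = v a / v b := by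
    intro z a b hb h
    have h1 : A z * b = a * B z := by
      apply hinj
      have h2 := (hAB z).trans h.symm
      rw [div_eq_div_iff (hne _ (hB z)) (hne _ hb)] at h2
      rw [map_mul, map_mul, h2]
    rw [div_eq_div_iff (hpos _ (hB z)).ne' (hpos _ hb).ne', ← v.map_mul, ← v.map_mul, h1]
  have hadd : ∀ x y : F, algebraMap R F (A x * B y + A y * B x) / algebraMap R F (B x * B y) =
      x + y := by
    intro x y
    conv_rhs => rw [← hAB x, ← hAB y]
    rw [div_add_div _ _ (hne _ (hB x)) (hne _ (hB y))]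
    simp only [map_add, map_mul]
    ring
  have hBB : ∀ x y : F, B x * B y ≠ 0 := fun x y => mul_ne_zero (hB x) (hB y)
  let w : AbsoluteValue F ℝ :=
    { toFun := fun z => v (A z) / v (B z)
      map_mul' := by
        intro x y
        have h1 : algebraMap R F (A x * A y) / algebraMap R F (B x * B y) = x * y := by
          conv_rhs => rw [← hAB x, ← hAB y]
          rw [map_mul, map_mul, div_mul_div_comm]
        rw [key (x * y) _ _ (hBB x y) h1, v.map_mul, v.map_mul, div_mul_div_comm]
      nonneg' := fun x => div_nonneg (v.nonneg _) (v.nonneg _)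
      eq_zero' := by
        intro x
        rw [div_eq_zero_iff, v.eq_zero, v.eq_zero]
        constructor
        · rintro (h | h)
          · rw [← hAB x, h, map_zero, zero_div]
          · exact absurd h (hB x)
        · intro h
          left
          have h2 := (hAB x).trans h
          rw [div_eq_zero_iff] at h2
          rcases h2 with h2 | h2
          · exact hinj (by rw [h2, map_zero])
          · exact absurd h2 (hne _ (hB x))
      add_le' := by
        intro x y
        rw [key (x + y) _ _ (hBB x y) (hadd x y),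
          div_add_div _ _ (hpos _ (hB x)).ne' (hpos _ (hB y)).ne', v.map_mul]
        apply div_le_div_of_nonneg_right _ (mul_nonneg (v.nonneg _) (v.nonneg _))
        refine (v.add_le _ _).trans ?_
        rw [v.map_mul, v.map_mul]
        linarith [mul_comm (v (A y)) (v (B x))] }
  have hw : ∀ z, w z = v (A z) / v (B z) := fun z => rfl
  refine ⟨w, ?_, ?_⟩
  · intro r
    rw [hw, key (algebraMap R F r) r 1 one_ne_zero (by rw [map_one, div_one]), v.map_one, div_one]
  · intro hv x y
    rw [hw (x + y), key (x + y) _ _ (hBB x y) (hadd x y), hw, hw,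
      div_le_iff₀ (hpos _ (hBB x y))]
    have h1 := hv (A x * B y) (A y * B x)
    rcases le_max_iff.mp h1 with h2 | h2
    · refine h2.trans ?_
      rw [v.map_mul, v.map_mul]
      have h3 : v (A x) * v (B y) = v (A x) / v (B x) * (v (B x) * v (B y)) := by
        field_simp [(hpos _ (hB x)).ne']
      rw [h3]
      exact mul_le_mul_of_nonneg_right (le_max_left _ _) (mul_nonneg (v.nonneg _) (v.nonneg _))
    · refine h2.trans ?_
      rw [v.map_mul, v.map_mul]
      have h3 : v (A y) * v (B x) = v (A y) / v (B y) * (v (B x) * v (B y)) := by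
        field_simp [(hpos _ (hB y)).ne']
      rw [h3]
      exact mul_le_mul_of_nonneg_right (le_max_right _ _) (mul_nonneg (v.nonneg _) (v.nonneg _))

/-- extension from the polynomial ring to `K(u)` -/
theorem exists_ext_LK (K : Type) [Field K] [Algebra K ℂ] {ι : Type} (u : ι → ℂ)
    (hu : AlgebraicIndependent K u) (v : AbsoluteValue (MvPolynomial ι K) ℝ) :
    ∃ w : AbsoluteValue (LK K u) ℝ, (∀ R, w (aeval (uL K u) R) = v R) ∧
      (IsNonarchimedean v → IsNonarchimedean w) := by
  obtain ⟨w, hw, hna⟩ := exists_ext_frac (MvPolynomial ι K) (FractionRing (MvPolynomial ι K)) v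
  let e := hu.aevalEquivField
  have hin : Function.Injective (e.symm : LK K u →+* FractionRing (MvPolynomial ι K)) :=
    e.symm.injective
  refine ⟨w.comp hin, ?_, ?_⟩
  · intro R
    have h1 : e (algebraMap _ _ R) = aeval (uL K u) R := by
      apply Subtype.ext
      rw [hu.aevalEquivField_algebraMap_apply_coe]
      have h2 : ((aeval (uL K u) R : LK K u) : ℂ) = (LK K u).val (aeval (uL K u) R) := rfl
      rw [h2, MvPolynomial.comp_aeval_apply]
      rfl
    have h3 : e.symm (aeval (uL K u) R) = algebraMap _ _ R := by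
      rw [← h1, AlgEquiv.symm_apply_apply]
    rw [← hw, ← h3]
    rfl
  · intro hv x y
    have h := hna hv (e.symm x) (e.symm y)
    rw [← map_add] at h
    exact h

/-! ### The degree in a block -/

section deg

variable {K : Type} [Field K] {k N : ℕ}

/-- a homomorphism that records the degree in the block l -/
def Phi (l : Fin k) : MvPolynomial (Fin k × Fin (N + 1)) K →ₐ[K]
    Polynomial (MvPolynomial (Fin k × Fin (N + 1)) K) :=
  aeval fun q => Polynomial.C (X q) * (if q.1 = l then Polynomial.X else 1)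

theorem Phi_monomial (l : Fin k) (s : Fin k × Fin (N + 1) →₀ ℕ) (c : K) :
    Phi l (monomial s c) = Polynomial.monomial (∑ j, s (l, j)) (monomial s c) := by
  classical
  rw [Phi, aeval_monomial]
  simp only [mul_pow]
  rw [Finsupp.prod_mul]
  have h1 : (s.prod fun q n => (if q.1 = l then (Polynomial.X :
      Polynomial (MvPolynomial (Fin k × Fin (N + 1)) K)) else 1) ^ n) =
      Polynomial.X ^ (∑ j, s (l, j)) := by
    rw [Finsupp.prod_fintype _ _ (fun q => by rw [pow_zero]), Fintype.prod_prod_type]
    have h2 : ∀ i : Fin k, (∏ j : Fin (N + 1), (if (i, j).1 = l then (Polynomial.X :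
        Polynomial (MvPolynomial (Fin k × Fin (N + 1)) K)) else 1) ^ (s (i, j))) =
        if i = l then Polynomial.X ^ (∑ j, s (l, j)) else 1 := by
      intro i
      by_cases h : i = l
      · subst h
        simp only [if_true]
        rw [Finset.prod_pow_eq_pow_sum]
      · simp [h]
    rw [Finset.prod_congr rfl (fun i _ => h2 i)]
    simp
  have h3 : (s.prod fun q n => (Polynomial.C (X q : MvPolynomial (Fin k × Fin (N + 1)) K)) ^ n) =
      Polynomial.C (s.prod fun q n => (X q : MvPolynomial (Fin k × Fin (N + 1)) K) ^ n) := by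
    rw [Finsupp.prod, Finsupp.prod, map_prod]
    simp only [map_pow]
  rw [h1, h3, monomial_eq, ← Polynomial.C_mul_X_pow_eq_monomial, Polynomial.algebraMap_apply,
    MvPolynomial.algebraMap_eq, Polynomial.C_mul, mul_assoc]

theorem Phi_coeff (l : Fin k) (R : MvPolynomial (Fin k × Fin (N + 1)) K) :
    ∀ (n : ℕ) (s : Fin k × Fin (N + 1) →₀ ℕ),
      ((Phi l R).coeff n).coeff s = if ∑ j, s (l, j) = n then R.coeff s else 0 := by
  classical
  induction R using MvPolynomial.induction_on' with
  | monomial t c =>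
    intro n s
    rw [Phi_monomial, Polynomial.coeff_monomial, coeff_monomial]
    by_cases h1 : t = s
    · subst h1
      by_cases h2 : ∑ j, t (l, j) = n
      · rw [if_pos h2, if_pos h2, coeff_monomial, if_pos rfl]
      · rw [if_neg h2, if_neg h2, coeff_zero]
    · rw [if_neg h1, ite_self]
      by_cases h2 : ∑ j, t (l, j) = n
      · rw [if_pos h2, coeff_monomial, if_neg h1]
      · rw [if_neg h2, coeff_zero]
  | add p q hp hq =>
    intro n s
    rw [map_add, Polynomial.coeff_add, coeff_add, hp, hq, coeff_add]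
    by_cases h2 : ∑ j, s (l, j) = n
    · simp [h2]
    · simp [h2]

theorem le_bdeg {m N : ℕ} {R : Type} [CommSemiring R] (i : Fin m)
    (Q : MvPolynomial (Fin m × Fin (N + 1)) R) (s : Fin m × Fin (N + 1) →₀ ℕ)
    (h : s ∈ Q.support) : ∑ j, s (i, j) ≤ bdeg i Q :=
  Finset.le_sup (f := fun s : Fin m × Fin (N + 1) →₀ ℕ => ∑ j, s (i, j)) h

theorem exists_bdeg {m N : ℕ} {R : Type} [CommSemiring R] (i : Fin m)
    (Q : MvPolynomial (Fin m × Fin (N + 1)) R) (h : Q ≠ 0) :
    ∃ s ∈ Q.support, bdeg i Q = ∑ j, s (i, j) := by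
  have hne : Q.support.Nonempty := by
    rw [Finset.nonempty_iff_ne_empty]
    intro h0
    exact h (support_eq_empty.mp h0)
  exact Finset.exists_mem_eq_sup _ hne _

theorem natDegree_Phi (l : Fin k) (R : MvPolynomial (Fin k × Fin (N + 1)) K) :
    (Phi l R).natDegree = bdeg l R := by
  apply le_antisymm
  · rw [Polynomial.natDegree_le_iff_coeff_eq_zero]
    intro n hn
    ext s
    rw [Phi_coeff, coeff_zero]
    by_cases h : ∑ j, s (l, j) = n
    · rw [if_pos h]
      by_contra h0
      have := le_bdeg l R s (mem_support_iff.mpr h0)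
      omega
    · rw [if_neg h]
  · by_cases h : R = 0
    · subst h
      simp [bdeg]
    · obtain ⟨s, hs, he⟩ := exists_bdeg l R h
      rw [he]
      apply Polynomial.le_natDegree_of_ne_zero
      intro h0
      have h1 := Phi_coeff l R (∑ j, s (l, j)) s
      rw [if_pos rfl, h0, coeff_zero] at h1
      exact (mem_support_iff.mp hs) h1.symm

theorem Phi_ne (l : Fin k) (R : MvPolynomial (Fin k × Fin (N + 1)) K) (h : R ≠ 0) :
    Phi l R ≠ 0 := by
  intro h0
  apply h
  ext s
  have h1 := Phi_coeff l R (∑ j, s (l, j)) s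
  rw [if_pos rfl, h0, Polynomial.coeff_zero] at h1
  exact h1.symm

open Classical in
/-- the absolute value exp(degree in the block l) -/
def vdeg (l : Fin k) : AbsoluteValue (MvPolynomial (Fin k × Fin (N + 1)) K) ℝ where
  toFun R := if R = 0 then 0 else Real.exp (bdeg l R)
  map_mul' R S := by
    by_cases hR : R = 0
    · simp [hR]
    · by_cases hS : S = 0
      · simp [hS]
      · rw [if_neg hR, if_neg hS, if_neg (mul_ne_zero hR hS), ← Real.exp_add]
        congr 1
        rw [← natDegree_Phi, ← natDegree_Phi, ← natDegree_Phi, map_mul,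
          Polynomial.natDegree_mul (Phi_ne l R hR) (Phi_ne l S hS)]
        push_cast
        rfl
  nonneg' R := by
    split_ifs
    · exact le_rfl
    · exact (Real.exp_pos _).le
  eq_zero' R := by
    split_ifs with h
    · exact ⟨fun _ => h, fun _ => rfl⟩
    · exact ⟨fun h0 => absurd h0 (Real.exp_pos _).ne', fun h0 => absurd h0 h⟩
  add_le' R S := by
    by_cases hR : R = 0
    · simp [hR]
    by_cases hS : S = 0
    · simp [hS]
    rw [if_neg hR, if_neg hS]
    by_cases h : R + S = 0
    · rw [if_pos h]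
      positivity
    · rw [if_neg h]
      have h1 : bdeg l (R + S) ≤ max (bdeg l R) (bdeg l S) := by
        rw [← natDegree_Phi, ← natDegree_Phi, ← natDegree_Phi, map_add]
        exact Polynomial.natDegree_add_le _ _
      rcases le_max_iff.mp h1 with h2 | h2
      · have h3 : Real.exp (bdeg l (R + S)) ≤ Real.exp (bdeg l R) :=
          Real.exp_le_exp.mpr (by exact_mod_cast h2)
        linarith [Real.exp_pos (bdeg l S)]
      · have h3 : Real.exp (bdeg l (R + S)) ≤ Real.exp (bdeg l S) :=
          Real.exp_le_exp.mpr (by exact_mod_cast h2)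
        linarith [Real.exp_pos (bdeg l R)]

open Classical in
theorem vdeg_apply (l : Fin k) (R : MvPolynomial (Fin k × Fin (N + 1)) K) :
    vdeg l R = if R = 0 then 0 else Real.exp (bdeg l R) := rfl

theorem vdeg_nonarch (l : Fin k) :
    IsNonarchimedean (vdeg l : AbsoluteValue (MvPolynomial (Fin k × Fin (N + 1)) K) ℝ) := by
  classical
  intro R S
  rw [vdeg_apply, vdeg_apply, vdeg_apply]
  by_cases hR : R = 0
  · subst hR
    rw [zero_add]
    exact le_max_right _ _
  by_cases hS : S = 0
  · subst hS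
    rw [add_zero]
    exact le_max_left _ _
  rw [if_neg hR, if_neg hS]
  by_cases h : R + S = 0
  · rw [if_pos h]
    exact le_max_of_le_left (Real.exp_pos _).le
  · rw [if_neg h]
    have h1 : bdeg l (R + S) ≤ max (bdeg l R) (bdeg l S) := by
      rw [← natDegree_Phi, ← natDegree_Phi, ← natDegree_Phi, map_add]
      exact Polynomial.natDegree_add_le _ _
    rcases le_max_iff.mp h1 with h2 | h2
    · exact le_max_of_le_left (Real.exp_le_exp.mpr (by exact_mod_cast h2))
    · exact le_max_of_le_right (Real.exp_le_exp.mpr (by exact_mod_cast h2))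

end deg

/-! ### The coefficients of the substitution -/

section coeffs

variable {K : Type} [Field K] {k N : ℕ}

/-- exponent in the block 0 -/
def pi0 (s : Fin (k + 1) × Fin (N + 1) →₀ ℕ) : Fin (N + 1) →₀ ℕ :=
  Finsupp.equivFunOnFinite.symm fun j => s (0, j)

/-- exponent in the blocks 1, ..., k -/
def pi1 (s : Fin (k + 1) × Fin (N + 1) →₀ ℕ) : Fin k × Fin (N + 1) →₀ ℕ :=
  Finsupp.equivFunOnFinite.symm fun q => s (q.1.succ, q.2)

/-- the joint exponent -/
def jn (α : Fin (N + 1) →₀ ℕ) (β : Fin k × Fin (N + 1) →₀ ℕ) : Fin (k + 1) × Fin (N + 1) →₀ ℕ :=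
  Finsupp.equivFunOnFinite.symm fun q =>
    Fin.cases (motive := fun _ => ℕ) (α q.2) (fun i => β (i, q.2)) q.1

theorem jn_zero (α : Fin (N + 1) →₀ ℕ) (β : Fin k × Fin (N + 1) →₀ ℕ) (j : Fin (N + 1)) :
    jn α β (0, j) = α j := rfl

theorem jn_succ (α : Fin (N + 1) →₀ ℕ) (β : Fin k × Fin (N + 1) →₀ ℕ) (i : Fin k)
    (j : Fin (N + 1)) : jn α β (i.succ, j) = β (i, j) := rfl

theorem eq_jn_iff (s : Fin (k + 1) × Fin (N + 1) →₀ ℕ) (α : Fin (N + 1) →₀ ℕ)
    (β : Fin k × Fin (N + 1) →₀ ℕ) : s = jn α β ↔ pi0 s = α ∧ pi1 s = β := by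
  constructor
  · intro h
    subst h
    constructor
    · ext j; rfl
    · ext q; rfl
  · rintro ⟨h1, h2⟩
    subst h1
    subst h2
    ext ⟨i, j⟩
    refine Fin.cases ?_ (fun i => ?_) i
    · rfl
    · rfl

theorem subX_monomial (s : Fin (k + 1) × Fin (N + 1) →₀ ℕ) (c : K) :
    sub K (fun q => (X q : MvPolynomial (Fin k × Fin (N + 1)) K)) (monomial s c) =
      monomial (pi0 s) (monomial (pi1 s) c) := by
  classical
  rw [sub, aeval_monomial, Finsupp.prod_fintype _ _ (fun q => by rw [pow_zero]),
    Fintype.prod_prod_type, Fin.prod_univ_succ]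
  simp only [Fin.cases_zero, Fin.cases_succ]
  rw [monomial_eq (s := pi0 s), monomial_eq (s := pi1 s),
    Finsupp.prod_fintype _ _ (fun q => by rw [pow_zero]),
    Finsupp.prod_fintype _ _ (fun q => by rw [pow_zero]), Fintype.prod_prod_type]
  have h1 : algebraMap K (MvPolynomial (Fin (N + 1)) (MvPolynomial (Fin k × Fin (N + 1)) K)) c =
    C (C c) := rfl
  have h2 : ∀ i y, pi1 s (i, y) = s (i.succ, y) := fun i y => rfl
  have h3 : ∀ y, pi0 s y = s (0, y) := fun y => rfl
  simp only [h1, h2, h3, map_mul, map_prod, map_pow]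
  ring

theorem subX_coeff (P : MvPolynomial (Fin (k + 1) × Fin (N + 1)) K) :
    ∀ (α : Fin (N + 1) →₀ ℕ) (β : Fin k × Fin (N + 1) →₀ ℕ),
      ((sub K (fun q => (X q : MvPolynomial (Fin k × Fin (N + 1)) K)) P).coeff α).coeff β =
        P.coeff (jn α β) := by
  classical
  induction P using MvPolynomial.induction_on' with
  | monomial t c =>
    intro α β
    rw [subX_monomial, coeff_monomial, coeff_monomial]
    by_cases h1 : pi0 t = α
    · rw [if_pos h1, coeff_monomial]
      by_cases h2 : pi1 t = β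
      · rw [if_pos h2, if_pos ((eq_jn_iff t α β).mpr ⟨h1, h2⟩)]
      · rw [if_neg h2, if_neg (fun h => h2 ((eq_jn_iff t α β).mp h).2)]
    · rw [if_neg h1, if_neg (fun h => h1 ((eq_jn_iff t α β).mp h).1), coeff_zero]
  | add p q hp hq =>
    intro α β
    rw [map_add, coeff_add, coeff_add, hp, hq, coeff_add]

theorem sub_eq_map (R : Type) [CommRing R] [Algebra K R] (u : Fin k × Fin (N + 1) → R)
    (P : MvPolynomial (Fin (k + 1) × Fin (N + 1)) K) :
    sub K u P = map (aeval u : MvPolynomial (Fin k × Fin (N + 1)) K →ₐ[K] R).toRingHom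
      (sub K (fun q => (X q : MvPolynomial (Fin k × Fin (N + 1)) K)) P) := by
  have h : sub K u = (mapAlgHom (aeval u : MvPolynomial (Fin k × Fin (N + 1)) K →ₐ[K] R)).comp
      (sub K (fun q => (X q : MvPolynomial (Fin k × Fin (N + 1)) K))) := by
    apply MvPolynomial.algHom_ext
    rintro ⟨i, j⟩
    refine Fin.cases ?_ (fun i => ?_) i
    · simp [sub]
    · simp [sub]
  rw [h]
  rfl

theorem sub_coeff (R : Type) [CommRing R] [Algebra K R] (u : Fin k × Fin (N + 1) → R)
    (P : MvPolynomial (Fin (k + 1) × Fin (N + 1)) K) (α : Fin (N + 1) →₀ ℕ) :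
    (sub K u P).coeff α = aeval u ((sub K (fun q => (X q : MvPolynomial (Fin k × Fin (N + 1)) K))
      P).coeff α) := by
  rw [sub_eq_map, coeff_map]
  rfl

end coeffs

/-- the value of gn -/
theorem gn_eq_of {R : Type} [CommRing R] {σ : Type} (w : AbsoluteValue R ℝ)
    (Q : MvPolynomial σ R) (B : ℝ) (h1 : ∀ s ∈ Q.support, w (Q.coeff s) ≤ B)
    (h2 : ∃ s ∈ Q.support, B ≤ w (Q.coeff s)) : gn w Q = B := by
  obtain ⟨s, hs, hB⟩ := h2
  have : Nonempty Q.support := ⟨⟨s, hs⟩⟩
  apply le_antisymm
  · exact ciSup_le fun s => h1 s.1 s.2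
  · refine hB.trans ?_
    exact le_ciSup (f := fun s : Q.support => w (Q.coeff s)) (Set.finite_range _).bddAbove ⟨s, hs⟩

theorem cde : S_CDE := by
  intro K _ _ k N u hu l
  obtain ⟨ω, hω, hna⟩ := exists_ext_LK K u hu (vdeg l)
  refine ⟨ω, hna (vdeg_nonarch l), ?_, ?_⟩
  · intro c hc
    have h1 : algebraMap K (LK K u) c = aeval (uL K u) (C c : MvPolynomial (Fin k × Fin (N + 1)) K) := by
      rw [aeval_C]
    rw [h1, hω, vdeg_apply, if_neg (fun h => hc (C_eq_zero.mp h))]
    have h2 : bdeg l (C c : MvPolynomial (Fin k × Fin (N + 1)) K) = 0 := by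
      rw [← natDegree_Phi, Phi, aeval_C]
      simp
    rw [h2]
    simp
  · intro P hP
    set Q := sub K (fun q => (X q : MvPolynomial (Fin k × Fin (N + 1)) K)) P with hQ
    have hc : ∀ α, ω ((sub K (uL K u) P).coeff α) = vdeg l (Q.coeff α) := by
      intro α
      rw [sub_coeff, hω]
    have hs : ∀ α, α ∈ (sub K (uL K u) P).support ↔ Q.coeff α ≠ 0 := by
      intro α
      rw [mem_support_iff, Ne, Ne, ← ω.eq_zero, hc, AbsoluteValue.eq_zero]
    apply gn_eq_of
    · intro α hα
      rw [hc, vdeg_apply, if_neg ((hs α).mp hα)]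
      apply Real.exp_le_exp.mpr
      obtain ⟨β, hβ, he⟩ := exists_bdeg l (Q.coeff α) ((hs α).mp hα)
      rw [he]
      have h1 : jn α β ∈ P.support := by
        rw [mem_support_iff, ← subX_coeff]
        exact mem_support_iff.mp hβ
      have h2 := le_bdeg l.succ P _ h1
      exact_mod_cast h2
    · obtain ⟨s, hs1, he⟩ := exists_bdeg l.succ P hP
      have hsj : s = jn (pi0 s) (pi1 s) := (eq_jn_iff s _ _).mpr ⟨rfl, rfl⟩
      have h1 : (Q.coeff (pi0 s)).coeff (pi1 s) ≠ 0 := by
        rw [hQ, subX_coeff, ← hsj]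
        exact mem_support_iff.mp hs1
      have h2 : Q.coeff (pi0 s) ≠ 0 := by
        intro h0
        rw [h0, coeff_zero] at h1
        exact h1 rfl
      refine ⟨pi0 s, (hs _).mpr h2, ?_⟩
      rw [hc, vdeg_apply, if_neg h2, he]
      apply Real.exp_le_exp.mpr
      have h3 := le_bdeg l (Q.coeff (pi0 s)) (pi1 s) (mem_support_iff.mpr h1)
      exact_mod_cast h3

end Pool.Agent.Helper8.HD
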